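import Mathlib

open Filter Topology Finset Complex Metric

namespace Pool.Agent.H.MP_051359_an

lemma arc (a : ℕ → ℂ) (n : ℕ) {Λ γ : ℝ} (hΛ : 1 < Λ) (hγ : γ * (Λ ^ 2 + 1) = 2 * Λ)
    (h : ∀ z : ℂ, ‖z‖ = 1 → 1 - 2 * γ ^ 2 ≤ z.re → ‖∑ k ∈ range (n + 1), a k * z ^ k‖ ≤ 1)
    {z : ℂ} (hz : ‖z‖ = 1) : ‖∑ k ∈ range (n + 1), a k * z ^ k‖ ≤ Λ ^ n := by
  have g0 : 0 < γ := by
    by_contra c
    nlinarith [mul_nonneg (neg_nonneg.2 (not_lt.1 c)) (by positivity : 0 ≤ Λ ^ 2 + 1)]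
  have g1 : γ < 1 := by
    by_contra c
    nlinarith [mul_nonneg (sub_nonneg.2 (not_lt.1 c)) (by positivity : 0 ≤ Λ ^ 2 + 1),
      sq_pos_of_pos (sub_pos.2 hΛ)]
  by_cases hre : 1 - 2 * γ ^ 2 ≤ z.re
  · exact (h z hz hre).trans (one_le_pow₀ hΛ.le)
  have q0 : ∀ w : ℂ, ‖w‖ ≤ 1 → 1 + γ * w ≠ 0 := fun w hw e => by
    have h1 : ‖(γ : ℂ) * w‖ = 1 := by rw [eq_neg_of_add_eq_zero_right e]; simp
    rw [norm_mul, Complex.norm_real, Real.norm_of_nonneg g0.le] at h1
    nlinarith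
  set B : ℂ → ℂ := fun w => (w + γ) / (1 + γ * w) with hB
  set G : ℂ → ℂ := fun w => ∑ k ∈ range (n + 1), a k * w ^ k * B w ^ (n - k) with hG
  have e1 : ∀ w, B w ≠ 0 → G w = B w ^ n * ∑ k ∈ range (n + 1), a k * (w / B w) ^ k := by
    intro w hw
    rw [mul_sum]
    refine sum_congr rfl fun k hk => ?_
    obtain ⟨j, rfl⟩ := Nat.exists_eq_add_of_le (Nat.lt_succ_iff.1 (mem_range.1 hk))
    rw [Nat.add_sub_cancel_left]
    generalize B w = b at hw ⊢
    rw [div_pow, pow_add]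
    field_simp
  have dG : DiffContOnCl ℂ G (ball 0 1) := by
    refine DifferentiableOn.diffContOnCl ?_
    rw [closure_ball _ one_ne_zero]
    have dB : DifferentiableOn ℂ B (closedBall 0 1) :=
      DifferentiableOn.div (by fun_prop) (by fun_prop) fun w hw => q0 w (by simpa using hw)
    exact DifferentiableOn.fun_sum fun k _ => DifferentiableOn.mul (by fun_prop) (dB.pow _)
  have b1 : ∀ w ∈ frontier (ball (0 : ℂ) 1), ‖G w‖ ≤ 1 := by
    intro w hw
    rw [frontier_ball _ one_ne_zero, mem_sphere_zero_iff_norm] at hw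
    have w0 : w ≠ 0 := by rintro rfl; simp at hw
    set q := 1 + γ * w with hq
    have q1 : q ≠ 0 := q0 w hw.le
    have q2 : (starRingEnd ℂ) q ≠ 0 := by simpa using q1
    have h1 : w * (starRingEnd ℂ) w = 1 := by rw [mul_conj, normSq_eq_norm_sq, hw]; simp
    have h2 : B w = w * (starRingEnd ℂ) q / q := by
      simp only [hB, hq, map_add, map_mul, map_one, conj_ofReal]
      congr 1
      linear_combination (-γ) * h1
    have h3 : ‖B w‖ = 1 := by
      rw [h2, norm_div, norm_mul, hw, one_mul, RCLike.norm_conj, div_self (norm_ne_zero_iff.2 q1)]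
    have h4 : w / B w = q / (starRingEnd ℂ) q := by rw [h2]; field_simp
    rw [e1 w (by rw [← norm_ne_zero_iff, h3]; exact one_ne_zero), norm_mul, norm_pow, h3, one_pow,
      one_mul]
    refine h _ (by rw [norm_div, h3, hw, div_one]) ?_
    have h5 : w.re ^ 2 + w.im ^ 2 = 1 := by
      have := normSq_eq_norm_sq w
      rw [hw, normSq_apply] at this
      linarith
    have h6 := normSq_pos.2 q1
    rw [h4, div_re, normSq_conj, ← add_div, le_div_iff₀ h6, normSq_apply]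
    simp only [hq, add_re, one_re, re_ofReal_mul, add_im, one_im, im_ofReal_mul, conj_re, conj_im,
      zero_add]
    have h7 : w.im ^ 2 = 1 - w.re ^ 2 := by linarith
    have h8 : 0 ≤ γ ^ 2 * (w.re + γ) ^ 2 := by positivity
    have h9 : γ ^ 2 * w.im ^ 2 = γ ^ 2 * (1 - w.re ^ 2) := by rw [h7]
    have h10 : γ ^ 4 * w.im ^ 2 = γ ^ 4 * (1 - w.re ^ 2) := by rw [h7]
    nlinarith
  obtain ⟨η, hη, hb⟩ : ∃ η : ℂ, η ^ 2 = z ∧ 0 ≤ η.im := by
    obtain ⟨η, hη⟩ := IsAlgClosed.exists_pow_nat_eq z two_pos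
    rcases le_total 0 η.im with c | c
    exacts [⟨η, hη, c⟩, ⟨-η, by rw [neg_sq, hη], by simpa using c⟩]
  have n1 : ‖η‖ = 1 := by
    rw [← hη, norm_pow] at hz
    exact (pow_eq_one_iff_of_nonneg (norm_nonneg _) two_ne_zero).1 hz
  have h5 : η.re ^ 2 + η.im ^ 2 = 1 := by
    have := normSq_eq_norm_sq η
    rw [n1, normSq_apply] at this
    linarith
  have h6 : z.re = η.re ^ 2 - η.im ^ 2 := by rw [← hη]; simp [pow_two]
  have h7 : γ < η.im := by
    by_contra c
    nlinarith [pow_le_pow_left₀ hb (not_lt.1 c) 2]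
  set t := η.im / γ with ht
  have t1 : 1 < t := (one_lt_div g0).2 h7
  have t2 : γ * t = η.im := by rw [ht]; field_simp
  set u := t + √(t ^ 2 - 1) with hu
  have s1 : √(t ^ 2 - 1) ^ 2 = t ^ 2 - 1 := Real.sq_sqrt (by nlinarith)
  have u1 : 1 < u := by have := Real.sqrt_nonneg (t ^ 2 - 1); linarith
  have u2 : u ^ 2 + 1 = 2 * t * u := by rw [hu]; nlinarith
  have u3 : u ≤ Λ := by
    by_contra c
    have c := not_le.1 c
    have i1 : η.im ≤ 1 := by nlinarith
    have i2 : γ * (u ^ 2 + 1) ≤ 2 * u := by rw [u2]; nlinarith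
    have i3 : γ * ((u - Λ) * (u * Λ - 1)) ≤ 0 := by nlinarith
    exact absurd i3 (not_le.2 (mul_pos g0 (mul_pos (by linarith) (by nlinarith))))
  set v := u⁻¹ with hv
  have v0 : 0 < v := by positivity
  have v1 : v * u = 1 := inv_mul_cancel₀ (by positivity)
  have v2 : γ * (v ^ 2 + 1) = 2 * η.im * v := by
    rw [← t2]; linear_combination γ * v ^ 2 * u2 - γ * (v * u + 1 - 2 * t * v) * v1
  set w := I * η * v with hw
  have w1 : ‖w‖ = v := by simp [hw, n1, v0.le]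
  have w2 : ‖w‖ ≤ 1 := by rw [w1]; exact inv_le_one_of_one_le₀ u1.le
  have z0 : z ≠ 0 := by rintro rfl; simp at hz
  have w0 : w ≠ 0 := by rw [← norm_ne_zero_iff, w1]; exact v0.ne'
  have h1 : η * (starRingEnd ℂ) η = 1 := by rw [mul_conj, normSq_eq_norm_sq, n1]; simp
  have h2 := sub_conj η
  have h3 : (γ : ℂ) * (v ^ 2 + 1) = 2 * η.im * v := by exact_mod_cast v2
  push_cast at h2
  have h4 : B w = w / z := by
    simp only [hB]
    rw [div_eq_div_iff (q0 w w2) z0, ← hη, hw]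
    linear_combination η ^ 2 * h3 - (γ * η ^ 2 * v ^ 2 - 2 * η.im * η ^ 2 * v) * I_sq +
      I * η * v * h1 + I * η ^ 2 * v * h2
  have h8 := norm_le_of_forall_mem_frontier_norm_le isBounded_ball dG b1 (z := w)
    (by rw [closure_ball _ one_ne_zero]; simpa using w2)
  rw [e1 w (by rw [h4]; exact div_ne_zero w0 z0), h4, div_div_cancel₀ w0, norm_mul, norm_pow,
    norm_div, w1, hz, div_one, hv, inv_pow, inv_mul_le_iff₀ (by positivity), mul_one] at h8
  exact h8.trans (pow_le_pow_left₀ (by positivity) u3 n)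

lemma coef (a : ℕ → ℂ) (n : ℕ) {C : ℝ} (hC : 0 ≤ C)
    (h : ∀ z : ℂ, ‖z‖ = 1 → ‖∑ k ∈ range (n + 1), a k * z ^ k‖ ≤ C) {k : ℕ} (hk : k ≤ n) :
    ‖a k‖ ≤ C := by
  set P : Polynomial ℂ := ∑ k ∈ range (n + 1), Polynomial.monomial k (a k) with hP
  have e1 : P.coeff k = a k := by
    simp [hP, Polynomial.finsetSum_coeff, Polynomial.coeff_monomial, hk]
  have e2 : ∀ z, P.eval z = ∑ k ∈ range (n + 1), a k * z ^ k := fun z => by
    simp [hP, Polynomial.eval_finsetSum]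
  have h1 := P.sum_sq_norm_coeff_eq_circleAverage
  have h2 : Real.circleAverage (fun θ => ‖P.eval θ‖ ^ 2) 0 1 ≤ C ^ 2 :=
    Real.circleAverage_mono_on_of_le_circle
      (ContinuousOn.circleIntegrable' (by fun_prop)) fun z hz => by
        rw [e2]
        exact pow_le_pow_left₀ (norm_nonneg _) (h z (by simpa using hz)) 2
  by_cases h0 : a k = 0
  · simpa [h0] using hC
  have h3 := single_le_sum (f := fun i => ‖P.coeff i‖ ^ 2) (s := P.support)
    (fun _ _ => by positivity) (Polynomial.mem_support_iff.2 (e1 ▸ h0) : k ∈ _)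
  simp only [e1] at h3
  exact (pow_le_pow_iff_left₀ (norm_nonneg _) hC two_ne_zero).1 (by linarith)

end Pool.Agent.H.MP_051359_an
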